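import Pool.Agent.H57.UGB.Defs

set_option autoImplicit false

open MvPolynomial

namespace Pool.Agent.H57.UGB

open Pool.Agent.H47.KB Pool.Agent.H47.UG

section fln

variable {n d : ℕ}

theorem fln_mem_anti (i : Fin (n + 2)) :
    Finsupp.single i d ∈ (Finset.univ : Finset (Fin (n + 2))).finsuppAntidiag d := by
  classical
  rw [Finset.mem_finsuppAntidiag]
  exact ⟨by simp [Finsupp.single_apply], Finset.subset_univ _⟩

theorem fln_gen_hom {R : Type} [CommRing R] (a : (Fin (n + 2) →₀ ℕ) → R) : (gen n d a).IsHomogeneous d := by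
  classical
  refine IsHomogeneous.sum _ _ _ fun α hα => isHomogeneous_monomial _ ?_
  rw [Finset.mem_finsuppAntidiag] at hα
  rw [Finsupp.degree_eq_sum]
  exact hα.1

theorem fln_coeff_gen {R : Type} [CommRing R] (a : (Fin (n + 2) →₀ ℕ) → R) (α : Fin (n + 2) →₀ ℕ)
    (hα : α ∈ (Finset.univ : Finset (Fin (n + 2))).finsuppAntidiag d) : coeff α (gen n d a) = a α := by
  classical
  unfold gen
  rw [coeff_sum, Finset.sum_eq_single α]
  · rw [coeff_monomial, if_pos rfl]
  · intro β _ hβ
    rw [coeff_monomial, if_neg hβ]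
  · intro h
    exact absurd hα h

theorem fln_gen_map {R S : Type} [CommRing R] [CommRing S] (f : R →+* S) (a : (Fin (n + 2) →₀ ℕ) → R) :
    map f (gen n d a) = gen n d fun α => f (a α) := by
  unfold gen
  rw [map_sum]
  exact Finset.sum_congr rfl fun α _ => map_monomial _ _ _

end fln

section ff

variable {n d : ℕ} (T : FF d (genK n d)) (k : ℕ)

/-- FLN -/
theorem fd_ne (hd : 1 ≤ d) : T.fd (Fin.last (n + 1)) ≠ 0 := by
  classical
  intro h
  have hhom : (genK n d).IsHomogeneous d := fln_gen_hom _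
  have hp : (pderiv (Fin.last (n + 1)) (genK n d)).IsHomogeneous (d - 1) := hhom.pderiv
  have hdvd : genK n d ∣ pderiv (Fin.last (n + 1)) (genK n d) := (T.ker _ _ hp).mp h
  have hco : coeff (Finsupp.single (Fin.last (n + 1)) (d - 1)) (pderiv (Fin.last (n + 1)) (genK n d)) ≠ 0 := by
    rw [coeff_pderiv]
    have e1 : Finsupp.single (Fin.last (n + 1)) (d - 1) + Finsupp.single (Fin.last (n + 1)) 1 =
        Finsupp.single (Fin.last (n + 1)) d := by
      rw [← Finsupp.single_add, Nat.sub_add_cancel hd]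
    rw [e1]
    unfold genK
    rw [fln_coeff_gen _ _ (fln_mem_anti _)]
    refine mul_ne_zero ?_ ?_
    · rw [Ne, FaithfulSMul.algebraMap_eq_zero_iff]
      exact X_ne_zero _
    · have : CharZero (KK n) := charZero_of_injective_algebraMap (algebraMap ℂ (KK n)).injective
      exact Nat.cast_add_one_ne_zero _
  have hne : pderiv (Fin.last (n + 1)) (genK n d) ≠ 0 := fun h0 => hco (by rw [h0, coeff_zero])
  have hne' : genK n d ≠ 0 := fun h0 => hne (by rw [h0, map_zero])
  obtain ⟨Q, hQ⟩ := hdvd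
  have hQ0 : Q ≠ 0 := fun h0 => hne (by rw [hQ, h0, mul_zero])
  have h1 := congrArg totalDegree hQ
  rw [totalDegree_mul_of_isDomain hne' hQ0, hhom.totalDegree hne', hp.totalDegree hne] at h1
  omega

theorem fln_coeff_ser (v : T.L) : PowerSeries.constantCoeff (ser T k v) = C v := by
  unfold ser
  rw [← PowerSeries.coeff_zero_eq_constantCoeff_apply, PowerSeries.coeff_mk]
  simp [rk]

theorem fln_FL : FL d (aK T k) (fun j => ser T k (T.x j)) = C (T.fd (Fin.last (n + 1))) := by
  unfold FL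
  have h1 : gen n d (aK T k) = map ((C : T.L →+* Bk T k).comp (algebraMap (KK n) T.L)) (genK n d) := by
    unfold genK
    rw [fln_gen_map]
    rfl
  rw [h1, pderiv_map, eval_map]
  unfold FF.fd
  rw [aeval_def]
  refine Eq.trans ?_ (hom_eval₂ _ _ _ _).symm
  exact congrArg (fun v => eval₂ ((C : T.L →+* Bk T k).comp (algebraMap (KK n) T.L)) v
    (pderiv (Fin.last (n + 1)) (genK n d))) (funext fun j => fln_coeff_ser T k _)

theorem fln_pt_FL {R : Type} [CommRing R] [Algebra ℂ R] (a : (Fin (n + 2) →₀ ℕ) → R)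
    (y : Fin (n + 2) → PowerSeries R) : pt a y (FL d (ua n k) (uy n k)) = FL d a y := by
  unfold FL
  have h1 : gen n d a = map ((pt a y : JR n k →ₐ[ℂ] R) : JR n k →+* R) (gen n d (ua n k)) := by
    rw [fln_gen_map]
    congr 1
    funext α
    change a α = pt a y (X (Sum.inl α))
    unfold pt
    rw [aeval_X]
    rfl
  rw [h1, pderiv_map, eval_map]
  change ((pt a y : JR n k →ₐ[ℂ] R) : JR n k →+* R) (eval _ _) = _
  unfold eval
  rw [coe_eval₂Hom, hom_eval₂, RingHom.comp_id]
  congr 1
  funext j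
  change pt a y (PowerSeries.constantCoeff (uy n k j)) = _
  unfold uy
  rw [← PowerSeries.coeff_zero_eq_constantCoeff_apply, PowerSeries.coeff_mk, dif_pos (Nat.succ_pos k)]
  unfold pt
  rw [aeval_X, ← PowerSeries.coeff_zero_eq_constantCoeff_apply]
  rfl

/-- FLN -/
theorem zk_FL (_hd : 1 ≤ d) : zk T k (FL d (ua n k) (uy n k)) = C (T.fd (Fin.last (n + 1))) := by
  unfold zk
  rw [fln_pt_FL, fln_FL]

end ff

end Pool.Agent.H57.UGB
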