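import Pool.Agent.H47.UG.Symb
import Pool.Agent.H1.UG.MultK

/-!
# LOW: some jet differential of a large space vanishes to low order at a given point of the fibre
-/

set_option autoImplicit false

open MvPolynomial

namespace Pool.Agent.H34.UGB

open Pool.Agent.H47.UG Pool.Agent.H47.KB Pool.Agent.H1.UG

/-- The exponents of weight `m` and orders `< k`. -/
def Ex (n k m : ℕ) : Set (ℕ × Fin n →₀ ℕ) :=
  {a | (∀ x ∈ a.support, x.1 < k) ∧ Finsupp.weight (fun x : ℕ × Fin n => x.1 + 1) a = m}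

/-- All exponents of `Q` have weight `m` and orders `< k`. -/
def HasEx {L : Type} [Field L] (n k m : ℕ) (Q : MvPolynomial (ℕ × Fin n) L) : Prop :=
  ∀ a ∈ Q.support, a ∈ Ex n k m

theorem HasEx.add {L : Type} [Field L] {n k m : ℕ} {P Q : MvPolynomial (ℕ × Fin n) L} (hP : HasEx n k m P)
    (hQ : HasEx n k m Q) : HasEx n k m (P + Q) := by
  classical
  intro a ha
  rcases Finset.mem_union.mp (support_add ha) with h | h
  · exact hP a h
  · exact hQ a h

theorem HasEx.mul {L : Type} [Field L] {n k m m' : ℕ} {P Q : MvPolynomial (ℕ × Fin n) L} (hP : HasEx n k m P)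
    (hQ : HasEx n k m' Q) : HasEx n k (m + m') (P * Q) := by
  classical
  intro a ha
  obtain ⟨b, hb, c, hc, rfl⟩ := Finset.mem_add.mp (support_mul P Q ha)
  refine ⟨fun x hx => ?_, by rw [map_add, (hP b hb).2, (hQ c hc).2]⟩
  rcases Finset.mem_union.mp (Finsupp.support_add hx) with h | h
  · exact (hP b hb).1 x h
  · exact (hQ c hc).1 x h

theorem HasEx.C {L : Type} [Field L] {n k : ℕ} (c : L) : HasEx n k 0 (C c : MvPolynomial (ℕ × Fin n) L) := by
  classical
  intro a ha
  rw [mem_support_iff, coeff_C] at ha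
  have h0 : a = 0 := by
    by_contra h
    rw [if_neg fun h' => h h'.symm] at ha
    exact ha rfl
  subst h0
  exact ⟨by simp, by simp⟩

theorem HasEx.prod {L ι : Type} [Field L] {n k : ℕ} (s : Finset ι) (m : ι → ℕ)
    (P : ι → MvPolynomial (ℕ × Fin n) L) (h : ∀ i ∈ s, HasEx n k (m i) (P i)) :
    HasEx n k (∑ i ∈ s, m i) (∏ i ∈ s, P i) := by
  classical
  induction s using Finset.induction_on with
  | empty => simpa using HasEx.C (n := n) (k := k) (1 : L)
  | insert i s hi ih =>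
    rw [Finset.sum_insert hi, Finset.prod_insert hi]
    exact (h i (Finset.mem_insert_self i s)).mul (ih fun j hj => h j (Finset.mem_insert_of_mem hj))

theorem hasEx_of_weight {L : Type} [Field L] {n k m : ℕ} (hk : m ≤ k) {Q : MvPolynomial (ℕ × Fin n) L}
    (h : IsWeightedHomogeneous FF.w Q m) : HasEx n k m Q := by
  intro a ha
  have h1 : Finsupp.weight FF.w a = m := h (mem_support_iff.mp ha)
  refine ⟨fun x hx => ?_, h1⟩
  have h2 : FF.w x ≤ Finsupp.weight FF.w a := Finsupp.le_weight_of_ne_zero' FF.w (Finsupp.mem_support_iff.mp hx)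
  have h3 : FF.w x = x.1 + 1 := rfl
  omega

variable {K : Type} [Field K] {n d : ℕ} {F : HP K n} (T : FF d F)

/-- The elements of `E_{k,m}(e)` have orders `≤ k` and weight `m`. -/
theorem hasEx_EE (k : ℕ) (e : ℤ) (m : ℕ) (i : Fin (n + 2)) (v : T.BB) (hv : v ∈ T.EE k e m i) :
    HasEx n k m v := by
  refine Submodule.span_induction (p := fun v _ => HasEx n k m v) ?_ ?_ ?_ ?_ hv
  · rintro _ ⟨a, -, q, s, l, hs, rfl⟩
    rw [← hs, ← zero_add (∑ r, ((s r : ℕ) + 1))]
    exact (HasEx.C _).mul (HasEx.prod _ (fun r => (s r : ℕ) + 1) _ fun r _ =>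
      hasEx_of_weight (s r).2 (T.D_iter_weight _ _))
  · intro a ha
    simp at ha
  · intro x y _ _ hx hy
    exact hx.add hy
  · intro c x _ hx a ha
    exact hx a (support_smul ha)

/-- The `L`-space of the polynomials with orders `< k` and weight `m` which vanish to order at least `p` at
`c`. -/
noncomputable def lowSub {L Λ : Type} [Field L] [Field Λ] [Algebra L Λ] (n k m p : ℕ) (c : ℕ × Fin n → Λ) :
    Submodule L (MvPolynomial (ℕ × Fin n) L) where
  carrier := {Q | HasEx n k m Q ∧ VanK p Q c}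
  zero_mem' := ⟨fun a ha => by simp at ha, fun a _ => by rw [map_zero, coeff_zero]⟩
  add_mem' := by
    rintro P Q ⟨h1, h2⟩ ⟨h3, h4⟩
    exact ⟨h1.add h3, fun a ha => by rw [map_add, coeff_add, h2 a ha, h4 a ha, add_zero]⟩
  smul_mem' := by
    rintro l Q ⟨h1, h2⟩
    refine ⟨fun a ha => h1 a (support_smul ha), fun a ha => ?_⟩
    rw [map_smul, coeff_smul, h2 a ha, smul_zero]

/-- LOW, from KDIM -/
theorem exists_low_of {k m b p N : ℕ} {Λ : Type} [Field Λ] [Algebra T.L Λ]
    (kdim : ∀ (U : Submodule T.L T.BB), FiniteDimensional T.L U → ∀ (H : Submodule K T.BB),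
      H ≤ FF.H0 (T.EE k (-(b : ℤ)) m) → (∀ v ∈ H, v ∈ U) →
      FiniteDimensional K H ∧ Module.finrank K H ≤ Module.finrank T.L U * N)
    (H : Submodule K T.BB) (hH : H ≤ FF.H0 (T.EE k (-(b : ℤ)) m))
    (hc : Nat.card (Mon n k m (p + 1)) * N < Module.finrank K H) (c : ℕ × Fin n → Λ) :
    ∃ σ ∈ H, ¬ VanK (p + 1) σ c := by
  by_contra hno
  push Not at hno
  obtain ⟨h1, h2⟩ := multK k m (p + 1) c (lowSub (L := T.L) n k m (p + 1) c) (fun Q hQ => hQ.1)
    fun Q hQ => hQ.2
  obtain ⟨-, h4⟩ := kdim _ h1 H hH fun v hv => ⟨hasEx_EE T k _ m 0 v ((Submodule.mem_iInf _).mp (hH hv) 0), hno v hv⟩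
  exact absurd hc (not_lt.mpr (h4.trans (Nat.mul_le_mul_right N h2)))

end Pool.Agent.H34.UGB
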