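import Mathlib

/-!
# MULT over every field

A space of polynomials all of whose elements vanish to order at least `p` at a point is determined by the
coefficients of degree at least `p`. The point may have coordinates in an extension field.
-/

set_option autoImplicit false

open MvPolynomial

namespace Pool.Agent.H34.UGB

/-- The polynomial `Q` vanishes to order at least `p` at the point `c`. -/
def Van {Λ σ : Type} [Field Λ] (p : ℕ) (Q : MvPolynomial σ Λ) (c : σ → Λ) : Prop :=
  ∀ a : σ →₀ ℕ, a.degree < p → coeff a (aeval (fun i => X i + C (c i)) Q) = 0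

section

variable {Λ σ : Type} [Field Λ]

/-- translation -/
noncomputable def tr (c : σ → Λ) : MvPolynomial σ Λ →ₐ[Λ] MvPolynomial σ Λ :=
  aeval fun i => X i + C (c i)

theorem tr_tr (c : σ → Λ) (Q : MvPolynomial σ Λ) : tr (-c) (tr c Q) = Q := by
  have h : (tr (-c)).comp (tr c) = AlgHom.id Λ _ := by
    ext i
    simp [tr]
  exact congrArg (fun f => f Q) h

theorem tr_injective (c : σ → Λ) : Function.Injective (tr c) := fun P Q h => by
  rw [← tr_tr c P, ← tr_tr c Q, h]

theorem totalDegree_tr_le (c : σ → Λ) (Q : MvPolynomial σ Λ) : (tr c Q).totalDegree ≤ Q.totalDegree := by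
  unfold tr
  rw [aeval_def, eval₂_eq]
  refine (totalDegree_finsetSum _ _).trans (Finset.sup_le fun s hs => ?_)
  refine (totalDegree_mul _ _).trans ?_
  have h1 : (algebraMap Λ (MvPolynomial σ Λ) (coeff s Q)).totalDegree = 0 := by
    rw [algebraMap_eq]
    exact totalDegree_C _
  rw [h1, zero_add]
  refine (totalDegree_finsetProd _ _).trans ?_
  have h2 : ∀ i ∈ s.support, ((X i + C (c i) : MvPolynomial σ Λ) ^ s i).totalDegree ≤ s i := by
    intro i _
    refine (totalDegree_pow _ _).trans ?_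
    have h3 : (X i + C (c i) : MvPolynomial σ Λ).totalDegree ≤ 1 := by
      refine (totalDegree_add _ _).trans ?_
      rw [totalDegree_X, totalDegree_C]
      simp
    calc s i * _ ≤ s i * 1 := Nat.mul_le_mul_left _ h3
      _ = s i := mul_one _
  refine (Finset.sum_le_sum h2).trans ?_
  exact le_totalDegree hs

/-- A polynomial of degree `< p` vanishing to order `≥ p` at a point is zero. -/
theorem eq_zero_of_low {p : ℕ} {c : σ → Λ} {Q : MvPolynomial σ Λ} (h : Van p Q c)
    (hd : ∀ s ∈ Q.support, s.degree < p) : Q = 0 := by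
  by_contra hQ
  have hne : Q.support.Nonempty := by
    rwa [Finset.nonempty_iff_ne_empty, Ne, support_eq_empty]
  have h2 : Q.totalDegree < p := by
    unfold totalDegree
    rw [Finset.sup_lt_iff]
    · intro s hs
      exact hd s hs
    · obtain ⟨s, hs⟩ := hne
      exact lt_of_le_of_lt (Nat.zero_le _) (hd s hs)
  have h3 : tr c Q ≠ 0 := fun h0 => hQ (tr_injective c (by rw [h0, map_zero]))
  apply h3
  ext s
  rw [coeff_zero]
  by_cases hs : s.degree < p
  · exact h s hs
  · by_contra hc
    have h4 : s ∈ (tr c Q).support := mem_support_iff.2 hc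
    have h5 := le_totalDegree h4
    have h6 := totalDegree_tr_le c Q
    have h7 : s.degree = s.sum fun _ e => e := rfl
    omega

theorem van_zero (p : ℕ) (c : σ → Λ) : Van p (0 : MvPolynomial σ Λ) c := fun a _ => by
  rw [map_zero, coeff_zero]

theorem Van.add {p : ℕ} {c : σ → Λ} {P Q : MvPolynomial σ Λ} (hP : Van p P c) (hQ : Van p Q c) :
    Van p (P + Q) c := fun a ha => by
  rw [map_add, coeff_add, hP a ha, hQ a ha, add_zero]

theorem Van.C_mul {p : ℕ} {c : σ → Λ} {Q : MvPolynomial σ Λ} (hQ : Van p Q c) (l : Λ) :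
    Van p (C l * Q) c := fun a ha => by
  rw [map_mul, aeval_C, algebraMap_eq, coeff_C_mul, hQ a ha, mul_zero]

theorem Van.mono {p p' : ℕ} {c : σ → Λ} {Q : MvPolynomial σ Λ} (hQ : Van p Q c) (h : p' ≤ p) :
    Van p' Q c := fun a ha => hQ a (lt_of_lt_of_le ha h)

end

/-- MULT -/
theorem multL {L Λ σ : Type} [Field L] [Field Λ] [Algebra L Λ] {p : ℕ} (c : σ → Λ) (S : Finset (σ →₀ ℕ))
    (U : Submodule L (MvPolynomial σ L)) (h1 : ∀ Q ∈ U, ∀ a ∈ Q.support, p ≤ a.degree → a ∈ S)
    (h2 : ∀ Q ∈ U, Van p (map (algebraMap L Λ) Q) c) :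
    FiniteDimensional L U ∧ Module.finrank L U ≤ S.card := by
  classical
  let Φ : U →ₗ[L] (S → L) :=
    { toFun := fun Q a => coeff a.1 Q.1
      map_add' := fun _ _ => by funext a; simp
      map_smul' := fun _ _ => by funext a; simp }
  have hΦ : Function.Injective Φ := by
    rw [← LinearMap.ker_eq_bot, LinearMap.ker_eq_bot']
    intro Q hQ
    apply Subtype.ext
    have h3 : map (algebraMap L Λ) Q.1 = 0 := by
      refine eq_zero_of_low (h2 Q.1 Q.2) fun s hs => ?_
      by_contra hlt
      push Not at hlt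
      have h4 : s ∈ Q.1.support := support_map_subset _ _ hs
      exact (mem_support_iff.1 h4) (congrFun hQ ⟨s, h1 Q.1 Q.2 s h4 hlt⟩)
    exact map_injective _ (algebraMap L Λ).injective (by rw [h3]; simp)
  have : FiniteDimensional L U := FiniteDimensional.of_injective Φ hΦ
  refine ⟨this, ?_⟩
  have h := LinearMap.finrank_le_finrank_of_injective hΦ
  rwa [Module.finrank_fintype_fun_eq_card, Fintype.card_coe] at h

/-- The polynomials with exponents in `S` which vanish to order at least `p` at `c`. -/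
def vanSub {L Λ σ : Type} [Field L] [Field Λ] [Algebra L Λ] (p : ℕ) (c : σ → Λ) (S : Set (σ →₀ ℕ)) :
    Submodule L (MvPolynomial σ L) where
  carrier := {Q | (∀ a ∈ Q.support, a ∈ S) ∧ Van p (map (algebraMap L Λ) Q) c}
  zero_mem' := ⟨by simp, by rw [map_zero]; exact van_zero _ _⟩
  add_mem' := by
    classical
    rintro P Q ⟨h1, h2⟩ ⟨h3, h4⟩
    refine ⟨fun a ha => ?_, by rw [map_add]; exact h2.add h4⟩
    rcases Finset.mem_union.mp (support_add ha) with h | h
    · exact h1 a h
    · exact h3 a h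
  smul_mem' := by
    rintro l Q ⟨h1, h2⟩
    refine ⟨fun a ha => h1 a (support_smul ha), ?_⟩
    rw [smul_eq_C_mul, map_mul, map_C]
    exact h2.C_mul _

theorem mem_vanSub {L Λ σ : Type} [Field L] [Field Λ] [Algebra L Λ] {p : ℕ} {c : σ → Λ} {S : Set (σ →₀ ℕ)}
    {Q : MvPolynomial σ L} : Q ∈ vanSub (L := L) p c S ↔
      (∀ a ∈ Q.support, a ∈ S) ∧ Van p (map (algebraMap L Λ) Q) c := Iff.rfl

/-- MULT, with the exponents in `S` -/
theorem finrank_vanSub {L Λ σ : Type} [Field L] [Field Λ] [Algebra L Λ] (p : ℕ) (c : σ → Λ)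
    (S : Set (σ →₀ ℕ)) (hS : {a ∈ S | p ≤ a.degree}.Finite) :
    FiniteDimensional L (vanSub (L := L) p c S) ∧
      Module.finrank L (vanSub (L := L) p c S) ≤ {a ∈ S | p ≤ a.degree}.ncard := by
  have h := multL (p := p) c hS.toFinset (vanSub (L := L) p c S)
    (fun Q hQ a ha h3 => hS.mem_toFinset.mpr ⟨hQ.1 a ha, h3⟩) fun Q hQ => hQ.2
  refine ⟨h.1, h.2.trans (le_of_eq ?_)⟩
  rw [Set.ncard_eq_toFinset_card _ hS]

end Pool.Agent.H34.UGB
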