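import Pool.Agent.H57.UGB.Defs
import Pool.Agent.H47.KB.Mult
import Pool.Agent.H34.UGB.Mult

set_option autoImplicit false

open MvPolynomial

namespace Pool.Agent.H57.UGB

open Pool.Agent.H47.KB Pool.Agent.H47.UG

/-- MULT over a field -/
theorem multK {Λ : Type} [Field Λ] {n k m p : ℕ} (c : Fin k × Fin n → Λ)
    (V : Submodule Λ (MvPolynomial (Fin k × Fin n) Λ))
    (h1 : ∀ Q ∈ V, IsWeightedHomogeneous (wt n k) Q m) (h2 : ∀ Q ∈ V, VanK p Q c) :
    Module.finrank Λ V ≤ Nat.card (Mon n k m p) := by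
  classical
  have : Fintype (Mon n k m p) := Fintype.ofFinite _
  let Φ : V →ₗ[Λ] (Mon n k m p → Λ) :=
    { toFun := fun Q a => coeff a.1 Q.1
      map_add' := fun _ _ => by funext a; simp
      map_smul' := fun _ _ => by funext a; simp }
  have hΦ : Function.Injective Φ := by
    rw [← LinearMap.ker_eq_bot, LinearMap.ker_eq_bot']
    intro Q hQ
    apply Subtype.ext
    refine Pool.Agent.H34.UGB.eq_zero_of_low (c := c) (p := p) (h2 Q.1 Q.2) fun s hs => ?_
    by_contra hlt
    push Not at hlt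
    exact (mem_support_iff.1 hs) (congrFun hQ ⟨s, h1 Q.1 Q.2 (mem_support_iff.1 hs), hlt⟩)
  have h := LinearMap.finrank_le_finrank_of_injective hΦ
  rwa [Module.finrank_fintype_fun_eq_card, ← Nat.card_eq_fintype_card] at h

end Pool.Agent.H57.UGB
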